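import Pool.Agent.helper7.EP.SpecL

/-!
# Project ep:, module BAD: at most 30 of `2 ^ j` consecutive windows are bad
-/

set_option autoImplicit false

open Finset

namespace Pool.Agent.EP

/-- two bad values cannot differ by something in `[3L, q - 3L]` -/
theorem BAD_core (a j e R R' y₁ y₁' y₂ : ℕ) (hj : 3 ≤ j) (hja : j ≤ a)
    (hR : Rb a y₁ y₂ = R) (hR' : Rb a y₁' y₂ = R')
    (hb : ¬ Good a j e y₁ y₂) (hb' : ¬ Good a j e y₁' y₂)
    (h1 : R + 3 * 2 ^ (a + 2 - j) ≤ R') (h2 : R' + 3 * 2 ^ (a + 2 - j) ≤ R + 2 ^ (a + 2)) :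
    False := by
  unfold Good at hb hb'
  rw [hR] at hb
  rw [hR'] at hb'
  have hq2 : 2 ^ (a + 2) = 2 * 2 ^ (a + 1) := by ring
  have hqpos : 0 < 2 ^ (a + 2) := by positivity
  have hLpos : 0 < 2 ^ (a + 2 - j) := by positivity
  have hLq : 8 * 2 ^ (a + 2 - j) ≤ 2 ^ (a + 2) := by
    have e1 : 2 ^ (a + 2) = 2 ^ (a + 2 - j) * 2 ^ j := by
      rw [← pow_add]; congr 1; omega
    have e2 : 2 ^ 3 ≤ 2 ^ j := Nat.pow_le_pow_right (by norm_num) hj
    have e3 : 2 ^ (a + 2 - j) * 2 ^ 3 ≤ 2 ^ (a + 2 - j) * 2 ^ j := Nat.mul_le_mul_left _ e2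
    omega
  set q := 2 ^ (a + 2) with hq
  set L := 2 ^ (a + 2 - j) with hL
  set hq' := 2 ^ (a + 1) with hhq
  obtain ⟨D, hD⟩ : ∃ D, R' = R + D := ⟨R' - R, by omega⟩
  have hmod : R' % q = (R % q + D) % q := by
    rw [hD, Nat.mod_add_mod]
  have hlt : R % q < q := Nat.mod_lt _ hqpos
  set ρ := R % q with hρ
  have hcase : R' % q = ρ + D ∨ R' % q + q = ρ + D := by
    rw [hmod]
    rcases Nat.lt_or_ge (ρ + D) q with h | h
    · left; exact Nat.mod_eq_of_lt h
    · right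
      have e1 : (ρ + D) % q = (ρ + D - q) % q := by
        rw [Nat.mod_eq_sub_mod h]
      rw [e1, Nat.mod_eq_of_lt (by omega)]
      omega
  set ρ' := R' % q with hρ'
  have hlt' : ρ' < q := Nat.mod_lt _ hqpos
  split_ifs at hb hb' with he
  · have hb1 : ρ < L ∨ q < ρ + 2 * L := by omega
    have hb1' : ρ' < L ∨ q < ρ' + 2 * L := by omega
    omega
  · have hb1 : hq' < ρ + 2 * L ∧ ρ < hq' + L := by omega
    have hb1' : hq' < ρ' + 2 * L ∧ ρ' < hq' + L := by omega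
    omega

theorem BAD (hG : GEO2_stmt) : BAD_stmt := by
  classical
  intro a j e y y₂ T hj hja hay h2 h2' hT he
  set B : Finset ℕ := {i ∈ range T | ¬ Good a j e (y + i * 2 ^ (a - j)) y₂} with hB
  have hset : {i : ℕ | i < T ∧ ¬ Good a j e (y + i * 2 ^ (a - j)) y₂} = (B : Set ℕ) := by
    ext i
    simp only [Set.mem_ofPred_eq, hB, coe_filter, mem_range]
  rw [hset, Set.ncard_coe_finset]
  -- bad indices in one block are close
  have hclose : ∀ i ∈ B, ∀ i' ∈ B, i / 2 ^ j = i' / 2 ^ j → i' < i + 30 := by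
    intro i hi i' hi' hdiv
    rw [hB, mem_filter, mem_range] at hi hi'
    by_contra hcon
    push Not at hcon
    have hjpos : 0 < 2 ^ j := by positivity
    have hd : i' ≤ i + 2 ^ j := by
      have e1 := Nat.div_add_mod i (2 ^ j)
      have e2 := Nat.div_add_mod i' (2 ^ j)
      have e3 := Nat.mod_lt i' hjpos
      rw [hdiv] at e1
      omega
    obtain ⟨d, rfl⟩ : ∃ d, i' = i + d := ⟨i' - i, by omega⟩
    have hle : y + i * 2 ^ (a - j) + d * 2 ^ (a - j) ≤ 2 * y := by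
      have e1 : (i + d + 1) * 2 ^ (a - j) ≤ T * 2 ^ (a - j) := Nat.mul_le_mul_right _ hi'.1
      have e2 : (i + d + 1) * 2 ^ (a - j) = i * 2 ^ (a - j) + d * 2 ^ (a - j) + 2 ^ (a - j) := by
        ring
      omega
    obtain ⟨g1, g2⟩ := hG a j y (y + i * 2 ^ (a - j)) y₂ d hj hja hay (by omega) hle h2 h2'
      (by omega) (by omega)
    have e3 : y + (i + d) * 2 ^ (a - j) = y + i * 2 ^ (a - j) + d * 2 ^ (a - j) := by ring
    rw [e3] at hi'
    exact BAD_core a j e _ _ _ _ y₂ hj hja rfl rfl hi.2 hi'.2 g1 g2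
  have himg : B.image (fun i => i / 2 ^ j) ⊆ range (T / 2 ^ j + 1) := by
    intro k hk
    rw [mem_image] at hk
    obtain ⟨i, hi, rfl⟩ := hk
    rw [hB, mem_filter, mem_range] at hi
    rw [mem_range]
    have := Nat.div_le_div_right (c := 2 ^ j) hi.1.le
    omega
  have hfib : ∀ k ∈ B.image (fun i => i / 2 ^ j), #{i ∈ B | i / 2 ^ j = k} ≤ 30 := by
    intro k hk
    set Fk : Finset ℕ := {i ∈ B | i / 2 ^ j = k} with hFk
    rcases Fk.eq_empty_or_nonempty with h0 | hne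
    · rw [h0]; simp
    · obtain ⟨i₀, hi₀, hmin⟩ := Fk.exists_min_image id hne
      have hsub : Fk ⊆ Ico i₀ (i₀ + 30) := by
        intro i hi
        have h1 := hmin i hi
        rw [hFk, mem_filter] at hi hi₀
        rw [mem_Ico]
        exact ⟨h1, hclose i₀ hi₀.1 i hi.1 (by rw [hi₀.2, hi.2])⟩
      have := card_le_card hsub
      rw [Nat.card_Ico] at this
      omega
  have h30 := card_le_mul_card_image B 30 hfib
  have hc := card_le_card himg
  rw [card_range] at hc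
  calc #B ≤ 30 * #(B.image (fun i => i / 2 ^ j)) := h30
    _ ≤ 30 * (T / 2 ^ j + 1) := Nat.mul_le_mul_left _ hc

end Pool.Agent.EP
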