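import Pool.Agent.helper7.EP.SpecA

/-!
# Project ep, row EVX: an even value
-/

set_option autoImplicit false

open Finset PowerSeries

noncomputable section

namespace Pool.Agent.EP

theorem EVX (hE : EMP_stmt) (hP : PV_stmt) : EVX_stmt := by
  intro a k p ha hk hodd hp hpt h1 h2 h3
  have hcop : Nat.Coprime k 6 := by
    have h := Nat.gcd_rec 6 k
    rw [hk, Nat.gcd_one_left] at h
    rw [Nat.coprime_comm]
    exact h
  by_contra hcon
  push Not at hcon
  have hS := hE a k p ha hcop h1 h2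
  have hterm : ∀ w ∈ ws (k * 2 ^ a), JG ac (k * 2 ^ a - 3 * w ^ 2) p = 1 := by
    intro w hw
    obtain ⟨hdvd, hval⟩ := hP a k w p ha hk hw hp hpt (h3 w hw)
    rw [hval, pp]
    have hne : Odd (Fintype.card (Nat.Partition (((k * 2 ^ a - 3 * w ^ 2) * p + 1) / 24))) := by
      rw [← Nat.not_even_iff_odd]
      exact hcon w hw hdvd
    exact ZMod.natCast_eq_one_iff_odd.2 hne
  rw [Finset.sum_congr rfl hterm, Finset.sum_const, nsmul_eq_mul, mul_one] at hS
  have h4 : ((#(ws (k * 2 ^ a)) : ℕ) : ZMod 2) = 1 :=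
    ZMod.natCast_eq_one_iff_odd.2 (Nat.odd_iff.2 hodd)
  rw [h4] at hS
  exact one_ne_zero hS

end Pool.Agent.EP
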