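import Pool.Agent.helper7.EP.SpecL

/-!
# Project ep:, module GEO1: the value of `Rb` does not change much in a window
-/

set_option autoImplicit false

namespace Pool.Agent.EP

theorem GEO1_core (r y y₁ y₂ p₁ p₂ e R A : ℤ) (hr : 0 < r) (hr19 : r ≤ 19) (he : 0 < e)
    (he8 : 8 * e ≤ y) (h1 : y ≤ y₁) (h1' : y₁ ≤ 2 * y) (h2 : y ≤ y₂) (h2' : y₂ ≤ 2 * y)
    (hp1 : y₁ ≤ p₁) (hp1' : p₁ < y₁ + e) (hp2 : y₂ ≤ p₂) (hp2' : p₂ < y₂ + e) (hR : 0 ≤ R)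
    (hA : 0 ≤ A) (hN : 3 * (R + 4 * e + 1) ^ 2 ≤ r * p₁ * p₂ + A)
    (h0 : r * y₁ * y₂ + A < 3 * (R + 1) ^ 2) : False := by
  have hy : 0 < y := by linarith
  have e1 : p₁ * p₂ ≤ (y₁ + e) * (y₂ + e) :=
    mul_le_mul hp1'.le hp2'.le (by linarith) (by linarith)
  have e2 : r * (p₁ * p₂) ≤ r * ((y₁ + e) * (y₂ + e)) := mul_le_mul_of_nonneg_left e1 hr.le
  have e3 : 3 * (8 * e * (R + 1) + 16 * e ^ 2) < r * (e * (y₁ + y₂ + e)) := by nlinarith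
  have e4 : e * (24 * (R + 1)) < e * (r * (y₁ + y₂ + e)) := by nlinarith
  have e5 : 24 * (R + 1) < r * (y₁ + y₂ + e) := lt_of_mul_lt_mul_left e4 he.le
  have e6 : (24 * (R + 1)) ^ 2 < (r * (y₁ + y₂ + e)) ^ 2 :=
    pow_lt_pow_left₀ e5 (by linarith) (by norm_num)
  have hyy : 0 < y₁ * y₂ := by
    apply mul_pos <;> linarith
  have e7 : r * (192 * (y₁ * y₂)) < r * (r * (y₁ + y₂ + e) ^ 2) := by nlinarith
  have e8 : 192 * (y₁ * y₂) < r * (y₁ + y₂ + e) ^ 2 := lt_of_mul_lt_mul_left e7 hr.le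
  have e9 : r * (y₁ + y₂ + e) ^ 2 ≤ 19 * (y₁ + y₂ + e) ^ 2 :=
    mul_le_mul_of_nonneg_right hr19 (sq_nonneg _)
  have e10 : 16 * (y₁ + y₂ + e) ≤ 17 * (y₁ + y₂) := by linarith
  have e11 : (16 * (y₁ + y₂ + e)) ^ 2 ≤ (17 * (y₁ + y₂)) ^ 2 :=
    pow_le_pow_left₀ (by linarith) e10 2
  have e12 : 0 ≤ (2 * y₁ - y₂) * (2 * y₂ - y₁) := by
    apply mul_nonneg <;> linarith
  nlinarith

theorem GEO1_r0 (a : ℕ) : 0 < r0 a ∧ r0 a ≤ 19 := by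
  unfold r0
  split_ifs <;> norm_num

theorem GEO1 : GEO1_stmt := by
  intro a j y y₁ y₂ p₁ p₂ hj hja hay h1 h1' h2 h2' hp1 hp1' hp2 hp2'
  obtain ⟨r1, r2⟩ := GEO1_r0 a
  have he8 : 8 * 2 ^ (a - j) ≤ y := by
    have e1 : 2 ^ a = 2 ^ (a - j) * 2 ^ j := by
      rw [← pow_add]; congr 1; omega
    have e2 : 2 ^ 3 ≤ 2 ^ j := Nat.pow_le_pow_right (by norm_num) hj
    have e3 : 2 ^ (a - j) * 2 ^ 3 ≤ 2 ^ (a - j) * 2 ^ j := Nat.mul_le_mul_left _ e2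
    omega
  have hL : 2 ^ (a + 2 - j) = 4 * 2 ^ (a - j) := by
    have : a + 2 - j = (a - j) + 2 := by omega
    rw [this, pow_add]; ring
  have hepos : 0 < 2 ^ (a - j) := by positivity
  rw [hL]
  set e := 2 ^ (a - j) with he
  have hmono : r0 a * y₁ * y₂ ≤ r0 a * p₁ * p₂ := by gcongr
  constructor
  · unfold Rb
    apply Nat.sqrt_le_sqrt
    apply Nat.div_le_div_right
    omega
  · by_contra hcon
    push Not at hcon
    have g1 : Rb a y₁ y₂ + 4 * e + 1 ≤ Rb a p₁ p₂ := hcon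
    have g2 : (Rb a p₁ p₂) ^ 2 ≤ (r0 a * p₁ * p₂ + 2 ^ a) / 3 := Nat.sqrt_le' _
    have g3 : (r0 a * y₁ * y₂ + 2 ^ a) / 3 < (Rb a y₁ y₂ + 1) ^ 2 := Nat.lt_succ_sqrt' _
    have g4 : (Rb a y₁ y₂ + 4 * e + 1) ^ 2 ≤ (Rb a p₁ p₂) ^ 2 := Nat.pow_le_pow_left g1 2
    have g5 : 3 * (Rb a y₁ y₂ + 4 * e + 1) ^ 2 ≤ r0 a * p₁ * p₂ + 2 ^ a := by
      have := Nat.div_mul_le_self (r0 a * p₁ * p₂ + 2 ^ a) 3
      omega
    have g6 : r0 a * y₁ * y₂ + 2 ^ a < 3 * (Rb a y₁ y₂ + 1) ^ 2 := by omega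
    refine GEO1_core (r0 a) y y₁ y₂ p₁ p₂ e (Rb a y₁ y₂) (2 ^ a) (by exact_mod_cast r1)
      (by exact_mod_cast r2) (by exact_mod_cast hepos) (by exact_mod_cast he8)
      (by exact_mod_cast h1) (by exact_mod_cast h1') (by exact_mod_cast h2)
      (by exact_mod_cast h2') (by exact_mod_cast hp1) (by exact_mod_cast hp1')
      (by exact_mod_cast hp2) (by exact_mod_cast hp2') (by positivity) (by positivity)
      (by exact_mod_cast g5) (by exact_mod_cast g6)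

end Pool.Agent.EP
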