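import Pool.Agent.helper7.EP.SpecL

/-!
# Project ep:, module RT: multiplicativity of the root
-/

set_option autoImplicit false

namespace Pool.Agent.EP

/-- inverses modulo `2 ^ k` -/
theorem RT_inv (k : ℕ) (c : ℤ) (hc : c % 2 = 1) : ∃ c' : ℤ, c * c' ≡ 1 [ZMOD 2 ^ k] := by
  have h1 : IsCoprime c ((2 : ℤ) ^ k) := by
    apply IsCoprime.pow_right
    refine ⟨1, -(c / 2), ?_⟩
    have := Int.emod_add_mul_ediv c 2
    linarith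
  obtain ⟨u, v, huv⟩ := h1
  refine ⟨u, ?_⟩
  rw [Int.modEq_iff_dvd]
  exact ⟨v, by linarith⟩

theorem RT (hSQ : SQ_stmt) : RT_stmt := by
  intro a c ha hc
  obtain ⟨hS, -⟩ := hSQ
  set M : ℤ := 2 ^ (a + 3) with hM
  have h8M : (8 : ℤ) ∣ M := ⟨2 ^ a, by rw [hM]; ring⟩
  have hcz : (c : ℤ) % 2 = 1 := by exact_mod_cast hc
  obtain ⟨c', hc'⟩ := RT_inv (a + 3) c hcz
  obtain ⟨t, ht⟩ := RT_inv (a + 3) 3 (by norm_num)
  rw [← hM] at hc' ht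
  have hc8 : (c : ℤ) * c' ≡ 1 [ZMOD 8] := hc'.of_dvd h8M
  have ht8 : (3 : ℤ) * t ≡ 1 [ZMOD 8] := ht.of_dvd h8M
  -- `s`
  have hs : ∀ p : ℕ, ∃ s : ℤ, p % 24 = c % 24 → s % 2 = 1 ∧ M ∣ c * s ^ 2 - p := by
    intro p
    by_cases hp : p % 24 = c % 24
    · have hp8 : (p : ℤ) ≡ c [ZMOD 8] := by
        have : p ≡ c [MOD 24] := hp
        have h2 : p ≡ c [MOD 8] := this.of_dvd (by norm_num)
        exact (Int.natCast_modEq_iff.2 h2)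
      have hN : (c' * p) % 8 = 1 := by
        have e1 : c' * (p : ℤ) ≡ 1 [ZMOD 8] := by
          calc c' * (p : ℤ) ≡ c' * c [ZMOD 8] := hp8.mul_left _
            _ = c * c' := by ring
            _ ≡ 1 [ZMOD 8] := hc8
        exact e1
      obtain ⟨s, hs1, hs2⟩ := hS a (c' * p) hN
      refine ⟨s, fun _ => ⟨hs1, ?_⟩⟩
      have e2 : s ^ 2 ≡ c' * p [ZMOD M] := ((Int.modEq_iff_dvd).2 (by rw [← hM] at hs2; exact hs2)).symm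
      have e3 : (c : ℤ) * s ^ 2 ≡ p [ZMOD M] := by
        calc (c : ℤ) * s ^ 2 ≡ c * (c' * p) [ZMOD M] := e2.mul_left _
          _ = (c * c') * p := by ring
          _ ≡ 1 * p [ZMOD M] := hc'.mul_right _
          _ = p := one_mul _
      exact Int.modEq_iff_dvd.1 e3.symm
    · exact ⟨1, fun h => absurd h hp⟩
  choose s hs using hs
  -- `g`
  have hr8 : (r0 a : ℤ) ≡ 3 [ZMOD 8] := by
    unfold r0
    split_ifs
    · norm_num [Int.ModEq]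
    · norm_num [Int.ModEq]
  obtain ⟨g₀, hg1, hg2⟩ := hS a (t * r0 a) (by
    have e1 : t * (r0 a : ℤ) ≡ 1 [ZMOD 8] := by
      calc t * (r0 a : ℤ) ≡ t * 3 [ZMOD 8] := hr8.mul_left _
        _ = 3 * t := by ring
        _ ≡ 1 [ZMOD 8] := ht8
    exact e1)
  have hg3 : 3 * g₀ ^ 2 ≡ r0 a [ZMOD M] := by
    have e2 : g₀ ^ 2 ≡ t * r0 a [ZMOD M] :=
      ((Int.modEq_iff_dvd).2 (by rw [← hM] at hg2; exact hg2)).symm
    calc 3 * g₀ ^ 2 ≡ 3 * (t * r0 a) [ZMOD M] := e2.mul_left _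
      _ = (3 * t) * r0 a := by ring
      _ ≡ 1 * r0 a [ZMOD M] := ht.mul_right _
      _ = r0 a := one_mul _
  have hA2 : (2 : ℤ) ^ (a - 1) * 2 = 2 ^ a := by
    rw [← pow_succ]; congr 1; omega
  have hsq : (1 + 3 * (2 : ℤ) ^ (a - 1)) ^ 2 ≡ 1 + 3 * 2 ^ a [ZMOD M] := by
    rw [Int.modEq_comm, Int.modEq_iff_dvd]
    have e1 : (1 + 3 * (2 : ℤ) ^ (a - 1)) ^ 2 - (1 + 3 * 2 ^ a) = 9 * 2 ^ ((a - 1) * 2) := by
      rw [← hA2, pow_mul]; ring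
    rw [e1, hM]
    exact Dvd.dvd.mul_left (pow_dvd_pow 2 (by omega)) 9
  refine ⟨g₀ * c * (1 + 3 * 2 ^ (a - 1)), s, ?_, fun p hp => hs p hp, ?_⟩
  · have e1 : (1 + 3 * (2 : ℤ) ^ (a - 1)) % 2 = 1 := by
      obtain ⟨b, hb⟩ : ∃ b, a - 1 = b + 1 := ⟨a - 2, by omega⟩
      rw [hb, pow_succ]
      omega
    rw [Int.mul_emod, Int.mul_emod g₀, hg1, hcz, e1]
    norm_num
  · intro p₁ p₂ n hp1 hp2 hn
    obtain ⟨-, d1⟩ := hs p₁ hp1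
    obtain ⟨-, d2⟩ := hs p₂ hp2
    have m1 : (c : ℤ) * s p₁ ^ 2 ≡ p₁ [ZMOD M] := (Int.modEq_iff_dvd.2 d1).symm
    have m2 : (c : ℤ) * s p₂ ^ 2 ≡ p₂ [ZMOD M] := (Int.modEq_iff_dvd.2 d2).symm
    have hp8 : ∀ p : ℕ, p % 24 = c % 24 → (p : ℤ) ≡ c [ZMOD 8] := by
      intro p hp
      have : p ≡ c [MOD 24] := hp
      have h2 : p ≡ c [MOD 8] := this.of_dvd (by norm_num)
      exact (Int.natCast_modEq_iff.2 h2)
    have hcc : (c : ℤ) * c ≡ 1 [ZMOD 8] := by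
      have : (c : ℤ) % 8 = 1 ∨ (c : ℤ) % 8 = 3 ∨ (c : ℤ) % 8 = 5 ∨ (c : ℤ) % 8 = 7 := by omega
      unfold Int.ModEq
      rw [Int.mul_emod]
      rcases this with h | h | h | h <;> rw [h] <;> norm_num
    have hrp : (r0 a : ℤ) * p₁ * p₂ ≡ 3 [ZMOD 8] := by
      calc (r0 a : ℤ) * p₁ * p₂ = r0 a * (p₁ * p₂) := by ring
        _ ≡ 3 * (c * c) [ZMOD 8] := hr8.mul ((hp8 p₁ hp1).mul (hp8 p₂ hp2))
        _ ≡ 3 * 1 [ZMOD 8] := hcc.mul_left _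
        _ = 3 := by norm_num
    -- `3 A r0 p₁ p₂ = A mod 8 A`
    have hA3 : 3 * 2 ^ a * ((r0 a : ℤ) * p₁ * p₂) ≡ 2 ^ a [ZMOD M] := by
      obtain ⟨k, hk⟩ := Int.modEq_iff_dvd.1 hrp
      rw [Int.modEq_iff_dvd]
      have e1 : (r0 a : ℤ) * p₁ * p₂ = 3 - 8 * k := by linarith
      rw [e1, hM]
      refine ⟨-1 + 3 * k, ?_⟩
      rw [pow_add]
      ring
    have key : 3 * (g₀ * c * (1 + 3 * 2 ^ (a - 1)) * s p₁ * s p₂) ^ 2 ≡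
        3 * (8 * (n : ℤ) + 1) [ZMOD M] := by
      calc 3 * (g₀ * c * (1 + 3 * 2 ^ (a - 1)) * s p₁ * s p₂) ^ 2
          = (3 * g₀ ^ 2) * (c * s p₁ ^ 2) * (c * s p₂ ^ 2) * (1 + 3 * 2 ^ (a - 1)) ^ 2 := by ring
        _ ≡ r0 a * p₁ * p₂ * (1 + 3 * 2 ^ a) [ZMOD M] := ((hg3.mul m1).mul m2).mul hsq
        _ = r0 a * p₁ * p₂ + 3 * 2 ^ a * (r0 a * p₁ * p₂) := by ring
        _ ≡ r0 a * p₁ * p₂ + 2 ^ a [ZMOD M] := hA3.add_left _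
        _ = 3 * (8 * (n : ℤ) + 1) := by
            have : ((24 * n + 3 : ℕ) : ℤ) = ((r0 a * p₁ * p₂ + 2 ^ a : ℕ) : ℤ) := by rw [hn]
            push_cast at this
            linarith
    -- divide by 3
    have h3 : IsCoprime ((2 : ℤ) ^ (a + 3)) 3 := by
      apply IsCoprime.pow_left
      exact ⟨-1, 1, by norm_num⟩
    have hd := Int.modEq_iff_dvd.1 key.symm
    rw [← mul_sub, hM] at hd
    exact h3.dvd_of_dvd_mul_left hd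

end Pool.Agent.EP
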